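import Pool.Agent.U481.HW.Stm2
import Pool.Agent.Helper458.Dav.P_QQ_level
import Pool.Agent.Helper458.Dav.P_const_eq

set_option autoImplicit false

/-!
Project HW, package WHILQ: uniform weak type (1,1) of the conjugate Poisson integrals.
-/

open MeasureTheory Filter Topology Set
open scoped ENNReal NNReal

namespace Pool.Agent.U978.HW.WHILQ

open Pool.Dav Pool.Agent.U481.HW

theorem QQ_smul (f : ℝ → ℂ) (c : ℂ) (δ x : ℝ) : QQ (fun y => f y * c) δ x = QQ f δ x * c := by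
  unfold QQ
  rw [← integral_mul_const]
  congr 1
  ext t
  ring

theorem main : S_whilQ := by
  have hU : 0 < U0 := const_eq.1
  refine ⟨(ENNReal.ofReal U0)⁻¹, ?_, ?_⟩
  · rw [ENNReal.inv_lt_top]
    exact ENNReal.ofReal_pos.2 hU
  intro δ hδ f hf t
  have hfi : ∫⁻ y, ‖f y‖ₑ = ENNReal.ofReal (∫ y, ‖f y‖) :=
    (ofReal_integral_norm_eq_lintegral_enorm hf).symm
  rcases eq_or_ne t 0 with rfl | ht0
  · simp
  rcases eq_or_ne t ⊤ with rfl | ht
  · have : {x : ℝ | (⊤ : ℝ≥0∞) < ‖QQ f δ x‖ₑ} = ∅ := by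
      ext x
      simp
    rw [this]
    simp
  obtain ⟨lam, hlam, rfl⟩ : ∃ lam : ℝ, 0 < lam ∧ t = ENNReal.ofReal lam :=
    ⟨t.toReal, ENNReal.toReal_pos ht0 ht, (ENNReal.ofReal_toReal ht).symm⟩
  have h := QQ_level (fun y => f y * ((lam : ℂ)⁻¹)) (hf.mul_const _) δ hδ
  have hset : {x : ℝ | 1 < ‖QQ (fun y => f y * ((lam : ℂ)⁻¹)) δ x‖} =
      {x : ℝ | ENNReal.ofReal lam < ‖QQ f δ x‖ₑ} := by
    ext x
    simp only [Set.mem_setOf_eq]
    rw [QQ_smul, norm_mul, norm_inv, Complex.norm_real, Real.norm_eq_abs, abs_of_pos hlam,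
      ← div_eq_mul_inv, lt_div_iff₀ hlam, one_mul, ← ofReal_norm_eq_enorm,
      ENNReal.ofReal_lt_ofReal_iff_of_nonneg hlam.le]
  have hint : ∫ y, ‖f y * ((lam : ℂ)⁻¹)‖ = (∫ y, ‖f y‖) * lam⁻¹ := by
    rw [← integral_mul_const]
    congr 1
    ext y
    rw [norm_mul, norm_inv, Complex.norm_real, Real.norm_eq_abs, abs_of_pos hlam]
  rw [hset, hint] at h
  rw [hfi]
  have hU' : ENNReal.ofReal U0 ≠ 0 := (ENNReal.ofReal_pos.2 hU).ne'
  rw [← ENNReal.mul_le_iff_le_inv hU' ENNReal.ofReal_ne_top]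
  calc ENNReal.ofReal U0 * (ENNReal.ofReal lam * volume {x : ℝ | ENNReal.ofReal lam < ‖QQ f δ x‖ₑ})
      = ENNReal.ofReal lam * (ENNReal.ofReal U0 * volume {x : ℝ | ENNReal.ofReal lam < ‖QQ f δ x‖ₑ}) := by
        ring
    _ ≤ ENNReal.ofReal lam * ENNReal.ofReal ((∫ y, ‖f y‖) * lam⁻¹) := by gcongr
    _ = ENNReal.ofReal (∫ y, ‖f y‖) := by
        rw [← ENNReal.ofReal_mul hlam.le]
        congr 1
        field_simp

end Pool.Agent.U978.HW.WHILQ
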